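import Pool.Agent.H200G.Stm2

/-! Project GR: job ACC. -/

set_option autoImplicit false

namespace Pool.Agent.Q200.GR

open Finset Pool.Agent.TH176.Nag Pool.Agent.TH603.Sur Pool.Agent.TH2.NU Pool.Agent.TH641.UM
open Pool.Agent.Y205.FW Pool.Agent.Y205.MD Pool.Agent.H200W Pool.Agent.H200P Pool.Agent.H200C
open Pool.Agent.H200G

theorem acc : S_Acc := by
  classical
  intro S hpos J V N
  induction J using Finset.induction_on with
  | empty =>
    intro c E h
    simpa using h (fun _ _ => 0) (fun _ _ => 0) (fun _ _ => 0) (by simp)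
  | insert b J hb ih =>
    intro c E h
    rw [sum_insert hb, add_assoc]
    have e256 : (256 : ℕ) = 4 ^ 4 := by norm_num
    rw [show (∑ v ∈ V b, Multiset.replicate (256 * N b v) v) =
      ∑ v ∈ V b, Multiset.replicate (4 ^ 4 * N b v) v from rfl]
    refine classes_acc hpos 4 (N b) (V b) fun a0 g00 g10 hl => ?_
    have e : ∑ v ∈ V b, Multiset.replicate (N b v) (a0 v) +
        (∑ k ∈ J, ∑ v ∈ V k, Multiset.replicate (256 * N k v) v + E) =
        ∑ k ∈ J, ∑ v ∈ V k, Multiset.replicate (256 * N k v) v +
          (∑ v ∈ V b, Multiset.replicate (N b v) (a0 v) + E) := by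
      rw [← add_assoc, ← add_assoc, add_comm (∑ v ∈ V b, Multiset.replicate (N b v) (a0 v))]
    rw [e]
    refine ih (c + ∑ v ∈ V b, g00 v) _ fun a g0 g1 hJ => ?_
    have hne : ∀ k ∈ J, k ≠ b := fun k hk hkb => hb (hkb ▸ hk)
    have h1 := h (Function.update a b a0) (Function.update g0 b g00) (Function.update g1 b g10) (by
      intro k hk v hv
      rcases mem_insert.1 hk with hkb | hkJ
      · subst hkb
        rw [Function.update_self, Function.update_self, Function.update_self]
        exact hl v hv
      · rw [Function.update_of_ne (hne k hkJ), Function.update_of_ne (hne k hkJ),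
          Function.update_of_ne (hne k hkJ)]
        exact hJ k hkJ v hv)
    rw [sum_insert hb, sum_insert hb, Function.update_self, Function.update_self] at h1
    have e2 : ∑ k ∈ J, ∑ v ∈ V k, Multiset.replicate (N k v) (Function.update a b a0 k v) =
        ∑ k ∈ J, ∑ v ∈ V k, Multiset.replicate (N k v) (a k v) :=
      sum_congr rfl fun k hk => by rw [Function.update_of_ne (hne k hk)]
    have e3 : ∑ k ∈ J, ∑ v ∈ V k, Function.update g0 b g00 k v = ∑ k ∈ J, ∑ v ∈ V k, g0 k v :=
      sum_congr rfl fun k hk => by rw [Function.update_of_ne (hne k hk)]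
    rw [e2, e3] at h1
    have e4 : ∑ k ∈ J, ∑ v ∈ V k, Multiset.replicate (N k v) (a k v) +
        (∑ v ∈ V b, Multiset.replicate (N b v) (a0 v) + E) =
        ∑ v ∈ V b, Multiset.replicate (N b v) (a0 v) +
          ∑ k ∈ J, ∑ v ∈ V k, Multiset.replicate (N k v) (a k v) + E := by
      rw [← add_assoc, add_comm (∑ v ∈ V b, Multiset.replicate (N b v) (a0 v))]
    rw [e4]
    omega

end Pool.Agent.Q200.GR
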